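import Pool.Agent.H446R3.NA.AV2
import Pool.Agent.H295R3.NA.StmtsB
import Pool.Agent.Helper923.PNT

/-! TaskAV (project H295-NA). -/

set_option autoImplicit false

open Filter Topology MeasureTheory Real Finset

namespace Pool.Agent.H446R3.NA

open Classical in
theorem KN_eq (y : ℝ) : KN y = ∑' l : Nat.Primes, ee (((l : ℕ) : ℝ) - 1) y := by
  have h := _root_.tsum_subtype {p : ℕ | p.Prime} (fun n : ℕ => ee ((n : ℝ) - 1) y)
  unfold KN
  refine Eq.trans ?_ h.symm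
  apply tsum_congr
  intro n
  simp only [Set.indicator_apply, Set.mem_ofPred_eq]

theorem MMr_eq {y : ℝ} : Pool.Agent.H295R3.NA.MMr (y ^ 2 * Real.log 2) =
    (1 / 2) * Real.exp (-(2 * lg * y)) * KN y := by
  rw [KN_eq, ← tsum_mul_left]
  unfold Pool.Agent.H295R3.NA.MMr
  apply tsum_congr
  intro l
  have hl := lg_pos
  have h1 := prime_u l.2
  have hu0 : (0 : ℝ) < ((l : ℕ) : ℝ) - 1 := by linarith
  have h2 : ((1 : ℝ) / 2) = Real.exp (-lg) := by
    unfold lg; rw [Real.exp_neg, Real.exp_log (by norm_num)]; norm_num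
  have h3 : ((1 : ℝ) / 2) ^ (l : ℕ) = Real.exp (-lg * ((l : ℕ) : ℝ)) := by
    rw [h2, ← Real.exp_nat_mul]; congr 1; ring
  rw [h3, h2, ee, ← Real.exp_add, ← Real.exp_add, ← Real.exp_add]
  congr 1
  change -lg * ((l : ℕ) : ℝ) + -(y ^ 2 * lg) / (((l : ℕ) : ℝ) - 1) = _
  field_simp
  ring

theorem gg_eq {y : ℝ} (hy : 2 ≤ y) : Pool.Agent.H295R3.NA.gg (y ^ 2 * Real.log 2) =
    √π * √y * Real.exp (-(2 * lg * y)) / (√lg * (2 * Real.log y + Real.log lg)) := by
  unfold Pool.Agent.H295R3.NA.gg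
  change √π * (y ^ 2 * lg) ^ (1 / 4 : ℝ) * Real.exp (-2 * √(y ^ 2 * lg * lg)) / (lg ^ (3 / 4 : ℝ) * Real.log (y ^ 2 * lg)) = _
  have hl := lg_pos
  have hy0 : 0 < y := by linarith
  have h1 : √(y ^ 2 * lg * lg) = y * lg := by
    rw [show y ^ 2 * lg * lg = (y * lg) ^ 2 by ring]
    exact Real.sqrt_sq (by positivity)
  have h2 : (y ^ 2 * lg) ^ (1 / 4 : ℝ) = √y * lg ^ (1 / 4 : ℝ) := by
    rw [Real.mul_rpow (by positivity) hl.le, Real.sqrt_eq_rpow, ← Real.rpow_natCast, ← Real.rpow_mul hy0.le]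
    norm_num
  have h3 : lg ^ (3 / 4 : ℝ) = √lg * lg ^ (1 / 4 : ℝ) := by
    rw [Real.sqrt_eq_rpow, ← Real.rpow_add hl]
    norm_num
  have h4 : Real.log (y ^ 2 * lg) = 2 * Real.log y + Real.log lg := by
    rw [Real.log_mul (by positivity) hl.ne', Real.log_pow]; norm_num
  rw [h1, h2, h3, h4]
  have h5 : 0 < lg ^ (1 / 4 : ℝ) := Real.rpow_pos_of_pos hl _
  have h6 : 0 < √lg := Real.sqrt_pos.2 hl
  have h7 : 0 < 2 * Real.log y + Real.log lg := by
    have g1 : Real.log 2 ≤ Real.log y := Real.log_le_log (by norm_num) hy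
    have g2 := lg_gt
    have g3 := log_lg_ge
    have g4 : lg ≤ Real.log y := g1
    linarith
  rw [show -2 * (y * lg) = -(2 * lg * y) by ring]
  field_simp

theorem ratio {y : ℝ} (hy : 2 ≤ y) : Pool.Agent.H295R3.NA.MMr (y ^ 2 * Real.log 2) /
    Pool.Agent.H295R3.NA.gg (y ^ 2 * Real.log 2) = ww y * KN y := by
  rw [MMr_eq, gg_eq hy, ww]
  have hl := lg_pos
  have hy0 : 0 < y := by linarith
  have h1 : 0 < √π := Real.sqrt_pos.2 Real.pi_pos
  have h2 : 0 < √y := Real.sqrt_pos.2 hy0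
  have h6 : 0 < √lg := Real.sqrt_pos.2 hl
  have h7 : 0 < 2 * Real.log y + Real.log lg := by
    have g1 : Real.log 2 ≤ Real.log y := Real.log_le_log (by norm_num) hy
    have g2 := lg_gt
    have g3 := log_lg_ge
    have g4 : lg ≤ Real.log y := g1
    linarith
  have h8 := Real.exp_pos (-(2 * lg * y))
  field_simp

theorem th1 (a c : ℝ) (ha : 0 < a) :
    Tendsto (fun Y : ℝ => Chebyshev.theta (a * Y + c) / Y) atTop (𝓝 a) := by
  have t1 : Tendsto (fun Y : ℝ => a * Y + c) atTop atTop :=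
    tendsto_atTop_add_const_right _ _ (tendsto_id.const_mul_atTop ha)
  have t2 := Pool.Agent.Helper923.PNT.theta_div_tendsto.comp t1
  have t3 : Tendsto (fun Y : ℝ => a + c / Y) atTop (𝓝 (a + 0)) :=
    tendsto_const_nhds.add (tendsto_const_nhds.div_atTop tendsto_id)
  have t4 := t2.mul t3
  rw [one_mul, add_zero] at t4
  refine t4.congr' ?_
  filter_upwards [t1.eventually_gt_atTop 0, eventually_gt_atTop 0] with Y h1 h2
  simp only [Function.comp]
  have h3 : a + c / Y = (a * Y + c) / Y := by field_simp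
  rw [h3]
  field_simp

theorem smallness1 {δ : ℝ} (hδ : 0 < δ) : ∃ Y0 : ℝ, ∀ y : ℝ, Y0 ≤ y →
    ww y * (Real.exp (-(lg * δ ^ 2 / 16) * y) *
      ∑' n : ℕ, Real.exp (-(lg * δ ^ 2 / 16) * ((n : ℝ) - 1))) ≤ δ := by
  have hl := lg_pos
  have hκ : 0 < lg * δ ^ 2 / 16 := by positivity
  set κ := lg * δ ^ 2 / 16 with hk
  set S := ∑' n : ℕ, Real.exp (-κ * ((n : ℝ) - 1)) with hS
  have hS0 : 0 ≤ S := tsum_nonneg (fun n => (Real.exp_pos _).le)
  have t1 : Tendsto (fun y : ℝ => 2 * (y ^ 1 * Real.exp (-κ * y)) * S) atTop (𝓝 (2 * 0 * S)) := by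
    apply Tendsto.mul_const
    apply Tendsto.const_mul
    have := tendsto_rpow_mul_exp_neg_mul_atTop_nhds_zero 1 κ hκ
    simpa using this
  rw [mul_zero, zero_mul] at t1
  obtain ⟨Y0, h0⟩ := eventually_atTop.1 ((t1.eventually_lt_const hδ).and (eventually_ge_atTop 2))
  refine ⟨Y0, fun y hy => ?_⟩
  obtain ⟨h1, h2⟩ := h0 y hy
  refine le_trans ?_ h1.le
  have h3 := ww_le h2
  have h4 : 0 ≤ Real.exp (-κ * y) * S := by positivity
  calc ww y * (Real.exp (-κ * y) * S) ≤ 2 * y * (Real.exp (-κ * y) * S) := mul_le_mul_of_nonneg_right h3 h4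
    _ = _ := by ring

theorem smallness2 {δ : ℝ} (hδ : 0 < δ) : ∃ Y0 : ℝ, ∀ u : ℝ, Y0 ≤ u →
    √2 * Real.exp (-(lg * δ ^ 2 / 2) * u) ≤ δ := by
  have hl := lg_pos
  have hκ : 0 < lg * δ ^ 2 / 2 := by positivity
  set κ := lg * δ ^ 2 / 2 with hk
  have t1 : Tendsto (fun y : ℝ => √2 * Real.exp (-κ * y)) atTop (𝓝 (√2 * 0)) := by
    apply Tendsto.const_mul
    apply Real.tendsto_exp_atBot.comp
    exact tendsto_id.const_mul_atTop_of_neg (by linarith)
  rw [mul_zero] at t1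
  obtain ⟨Y0, h0⟩ := eventually_atTop.1 (t1.eventually_lt_const hδ)
  exact ⟨Y0, fun y hy => (h0 y hy).le⟩

theorem avg_eq {Y : ℝ} (hY : 2 ≤ Y) : ∫ y in Y..(2 * Y),
    Pool.Agent.H295R3.NA.MMr (y ^ 2 * Real.log 2) / Pool.Agent.H295R3.NA.gg (y ^ 2 * Real.log 2) =
    ∫ y in Y..(2 * Y), ww y * KN y := by
  apply intervalIntegral.integral_congr
  intro y hy
  rw [Set.uIcc_of_le (by linarith)] at hy
  exact ratio (le_trans hY hy.1)

theorem taskAV : Pool.Agent.H295R3.NA.TaskAV := by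
  show Tendsto (fun Y : ℝ => (1 / Y) * ∫ y in Y..(2 * Y),
    Pool.Agent.H295R3.NA.MMr (y ^ 2 * Real.log 2) / Pool.Agent.H295R3.NA.gg (y ^ 2 * Real.log 2)) atTop (𝓝 1)
  rw [tendsto_order]
  constructor
  · intro a ha
    -- choose δ
    have hc : Tendsto (fun δ : ℝ => (1 - δ) ^ 4 * (2 / (1 + δ) - 1 / (1 - δ))) (𝓝[>] 0) (𝓝 1) := by
      have hcont : ContinuousAt (fun δ : ℝ => (1 - δ) ^ 4 * (2 / (1 + δ) - 1 / (1 - δ))) 0 := by
        apply ContinuousAt.mul (by fun_prop)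
        apply ContinuousAt.sub
        · exact ContinuousAt.div (by fun_prop) (by fun_prop) (by norm_num)
        · exact ContinuousAt.div (by fun_prop) (by fun_prop) (by norm_num)
      have h := hcont.tendsto.mono_left (nhdsWithin_le_nhds (s := Set.Ioi 0))
      norm_num at h
      simpa using h
    obtain ⟨δ, hδa, hδ⟩ := ((hc.eventually_const_lt ha).and
      (Ioo_mem_nhdsGT (show (0 : ℝ) < 1 / 2 by norm_num))).exists
    have hδ0 : 0 < δ := hδ.1
    have hδ2 : δ ≤ 1 / 2 := hδ.2.le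
    have hd1 : (0 : ℝ) < 1 - δ := by linarith
    have hd2 : (0 : ℝ) < 1 + δ := by linarith
    have t1 := ((th1 (2 / (1 + δ)) 0 (by positivity)).sub (th1 (1 / (1 - δ)) 1 (by positivity))).const_mul ((1 - δ) ^ 4)
    obtain ⟨Y0, hY0⟩ := smallness2 hδ0
    have hlog : ∀ᶠ Y : ℝ in atTop, 2 / δ ≤ Real.log Y := Real.tendsto_log_atTop.eventually_ge_atTop _
    filter_upwards [t1.eventually_const_lt hδa, eventually_ge_atTop 2, eventually_ge_atTop Y0, hlog] with Y e1 e2 e3 e4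
    have h := lower_int hδ0 hδ2 e2 e4 (fun u hu => hY0 u (le_trans e3 hu))
    rw [avg_eq e2]
    refine lt_of_lt_of_le e1 ?_
    rw [add_zero]
    have hY0' : 0 < Y := by linarith
    calc (1 - δ) ^ 4 * (Chebyshev.theta (2 / (1 + δ) * Y) / Y - Chebyshev.theta (1 / (1 - δ) * Y + 1) / Y)
        = (1 / Y) * ((1 - δ) ^ 4 * (Chebyshev.theta (2 / (1 + δ) * Y) - Chebyshev.theta (1 / (1 - δ) * Y + 1))) := by ring
      _ ≤ _ := mul_le_mul_of_nonneg_left h (by positivity)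
  · intro a ha
    have hc : Tendsto (fun δ : ℝ => (1 + δ) / (1 - δ) * (2 / (1 - δ) - 1 / (1 + δ)) + δ) (𝓝[>] 0) (𝓝 1) := by
      have hcont : ContinuousAt (fun δ : ℝ => (1 + δ) / (1 - δ) * (2 / (1 - δ) - 1 / (1 + δ)) + δ) 0 := by
        apply ContinuousAt.add _ (by fun_prop)
        apply ContinuousAt.mul
        · exact ContinuousAt.div (by fun_prop) (by fun_prop) (by norm_num)
        apply ContinuousAt.sub
        · exact ContinuousAt.div (by fun_prop) (by fun_prop) (by norm_num)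
        · exact ContinuousAt.div (by fun_prop) (by fun_prop) (by norm_num)
      have h := hcont.tendsto.mono_left (nhdsWithin_le_nhds (s := Set.Ioi 0))
      norm_num at h
      simpa using h
    obtain ⟨δ, hδa, hδ⟩ := ((hc.eventually_lt_const ha).and
      (Ioo_mem_nhdsGT (show (0 : ℝ) < 1 / 2 by norm_num))).exists
    have hδ0 : 0 < δ := hδ.1
    have hδ2 : δ ≤ 1 / 2 := hδ.2.le
    have hd1 : (0 : ℝ) < 1 - δ := by linarith
    have hd2 : (0 : ℝ) < 1 + δ := by linarith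
    have t1 := (((th1 (2 / (1 - δ)) 1 (by positivity)).sub (th1 (1 / (1 + δ)) 0 (by positivity))).const_mul
      ((1 + δ) / (1 - δ))).add_const δ
    obtain ⟨Y0, hY0⟩ := smallness1 hδ0
    have hlog : ∀ᶠ Y : ℝ in atTop, 2 / δ ≤ Real.log (Y / 2) :=
      (Real.tendsto_log_atTop.comp (tendsto_id.atTop_div_const (by norm_num))).eventually_ge_atTop _
    filter_upwards [t1.eventually_lt_const hδa, eventually_ge_atTop 2, eventually_ge_atTop Y0, hlog] with Y e1 e2 e3 e4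
    have h := upper_int hδ0 hδ2 e2 e4 (fun u hu => hY0 u (le_trans e3 hu))
    rw [avg_eq e2]
    refine lt_of_le_of_lt ?_ e1
    rw [add_zero]
    have hY0' : 0 < Y := by linarith
    calc (1 / Y) * ∫ y in Y..(2 * Y), ww y * KN y
        ≤ (1 / Y) * ((1 + δ) / (1 - δ) *
          (Chebyshev.theta (2 / (1 - δ) * Y + 1) - Chebyshev.theta (1 / (1 + δ) * Y)) + δ * Y) :=
          mul_le_mul_of_nonneg_left h (by positivity)
      _ = _ := by field_simp

end Pool.Agent.H446R3.NA
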