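import Mathlib

/-! Real analysis for TaskAV (project H295-NA). -/

set_option autoImplicit false

open Filter Topology MeasureTheory Real

namespace Pool.Agent.H446R3.NA

noncomputable def lg : ℝ := Real.log 2

theorem lg_pos : 0 < lg := Real.log_pos (by norm_num)
theorem lg_gt : 0.6931 < lg := by have := Real.log_two_gt_d9; unfold lg; linarith
theorem lg_lt : lg < 0.6932 := by have := Real.log_two_lt_d9; unfold lg; linarith

noncomputable def ee (u y : ℝ) : ℝ := Real.exp (-(lg / u) * (y - u) ^ 2)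

noncomputable def ww (y : ℝ) : ℝ := (2 * Real.log y + Real.log lg) * √lg / (2 * √π * √y)

noncomputable def w0 (u : ℝ) : ℝ := Real.log u * √lg / (√π * √u)

theorem ee_pos (u y : ℝ) : 0 < ee u y := Real.exp_pos _

theorem log_lg_neg : Real.log lg < 0 := Real.log_neg lg_pos (by have := lg_lt; linarith)

theorem log_lg_ge : -1 ≤ Real.log lg := by
  rw [Real.le_log_iff_exp_le lg_pos]
  have h1 : Real.exp (-1) < 0.3678794412 := Real.exp_neg_one_lt_d9
  have := lg_gt
  linarith

/-- Gaussian integral -/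
theorem int_gauss (b u : ℝ) : ∫ y : ℝ, Real.exp (-b * (y - u) ^ 2) = √(π / b) := by
  rw [integral_sub_right_eq_self (fun y : ℝ => Real.exp (-b * y ^ 2)) u]
  exact integral_gaussian b

theorem integrable_gauss {b : ℝ} (hb : 0 < b) (u : ℝ) :
    Integrable (fun y : ℝ => Real.exp (-b * (y - u) ^ 2)) :=
  (integrable_exp_neg_mul_sq hb).comp_sub_right u

theorem int_ee (u : ℝ) : ∫ y : ℝ, ee u y = √(π / (lg / u)) := int_gauss _ _

theorem integrable_ee {u : ℝ} (hu : 0 < u) : Integrable (fun y : ℝ => ee u y) :=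
  integrable_gauss (div_pos lg_pos hu) u

theorem sqrt_calc {u : ℝ} (hu : 0 < u) : w0 u * √(π / (lg / u)) = Real.log u := by
  have hl := lg_pos
  have hp := Real.pi_pos
  have h1 : √(π / (lg / u)) = √π * √u / √lg := by
    rw [show π / (lg / u) = (π * u) / lg by field_simp]
    rw [Real.sqrt_div (by positivity), Real.sqrt_mul (by positivity)]
  rw [h1, w0]
  have h2 : 0 < √lg := Real.sqrt_pos.2 hl
  have h3 : 0 < √π := Real.sqrt_pos.2 hp
  have h4 : 0 < √u := Real.sqrt_pos.2 hu
  field_simp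

/-- near comparison -/
theorem near {δ u y : ℝ} (hδ : 0 < δ) (hδ2 : δ ≤ 1 / 2) (hu : 0 < u) (hlu : 2 / δ ≤ Real.log u)
    (hy : |y - u| ≤ δ * u) :
    (1 - δ) ^ 2 * w0 u ≤ ww y ∧ ww y ≤ (1 + δ) / (1 - δ) * w0 u := by
  have hl := lg_pos
  have hp := Real.pi_pos
  rw [abs_le] at hy
  have hy1 : (1 - δ) * u ≤ y := by nlinarith [hy.1]
  have hy2 : y ≤ (1 + δ) * u := by nlinarith [hy.2]
  have hy0 : 0 < y := lt_of_lt_of_le (by nlinarith) hy1
  have h2 : 0 < √lg := Real.sqrt_pos.2 hl
  have h3 : 0 < √π := Real.sqrt_pos.2 hp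
  have h4 : 0 < √u := Real.sqrt_pos.2 hu
  have h5 : 0 < √y := Real.sqrt_pos.2 hy0
  have hd2 : 4 ≤ 2 / δ := by rw [le_div_iff₀ hδ]; linarith
  have hlu4 : 4 ≤ Real.log u := le_trans hd2 hlu
  have hlogd : 2 ≤ δ * Real.log u := by
    have := (div_le_iff₀ hδ).1 hlu
    linarith
  have ll1 := log_lg_neg
  have ll2 := log_lg_ge
  -- log bounds
  have L1 : 2 * Real.log y + Real.log lg ≤ 2 * ((1 + δ) * Real.log u) := by
    have a1 : Real.log y ≤ Real.log ((1 + δ) * u) := Real.log_le_log hy0 hy2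
    rw [Real.log_mul (by linarith) hu.ne'] at a1
    have a2 : Real.log (1 + δ) ≤ δ := by
      have := Real.log_le_sub_one_of_pos (show (0 : ℝ) < 1 + δ by linarith)
      linarith
    nlinarith
  have L2 : 2 * ((1 - δ) * Real.log u) ≤ 2 * Real.log y + Real.log lg := by
    have a1 : Real.log ((1 - δ) * u) ≤ Real.log y := Real.log_le_log (by nlinarith) hy1
    rw [Real.log_mul (by linarith) hu.ne'] at a1
    have a2 : -1 ≤ Real.log (1 - δ) := by
      rw [Real.le_log_iff_exp_le (by linarith)]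
      have h1 : Real.exp (-1) < 0.3678794412 := Real.exp_neg_one_lt_d9
      linarith
    nlinarith
  -- sqrt bounds
  have S1 : (1 - δ) * √u ≤ √y := by
    have a1 : √((1 - δ) ^ 2 * u) ≤ √y := by
      apply Real.sqrt_le_sqrt
      nlinarith
    rwa [Real.sqrt_mul (by positivity), Real.sqrt_sq (by linarith)] at a1
  have S2 : (1 - δ) * √y ≤ √u := by
    have a1 : √((1 - δ) ^ 2 * y) ≤ √u := by
      apply Real.sqrt_le_sqrt
      have : (1 - δ) ^ 2 * y ≤ (1 - δ) ^ 2 * ((1 + δ) * u) := by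
        apply mul_le_mul_of_nonneg_left hy2; positivity
      have h6 : (1 - δ) ^ 2 * (1 + δ) ≤ 1 := by
        have q1 : 0 ≤ δ ^ 2 * (1 - δ) := by apply mul_nonneg (by positivity); linarith
        nlinarith
      nlinarith
    rwa [Real.sqrt_mul (by positivity), Real.sqrt_sq (by linarith)] at a1
  constructor
  · rw [ww, w0]
    rw [show (1 - δ) ^ 2 * (Real.log u * √lg / (√π * √u)) =
      (√lg / (2 * √π)) * ((2 * ((1 - δ) * Real.log u)) * ((1 - δ) / √u)) by field_simp]
    rw [show (2 * Real.log y + Real.log lg) * √lg / (2 * √π * √y) =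
      (√lg / (2 * √π)) * ((2 * Real.log y + Real.log lg) * (1 / √y)) by field_simp]
    apply mul_le_mul_of_nonneg_left _ (by positivity)
    apply mul_le_mul L2 _ (by apply div_nonneg <;> linarith) (by nlinarith)
    rw [div_le_div_iff₀ h4 h5]
    linarith
  · rw [ww, w0]
    have h1d : 0 < 1 - δ := by linarith
    rw [show (1 + δ) / (1 - δ) * (Real.log u * √lg / (√π * √u)) =
      (√lg / (2 * √π)) * ((2 * ((1 + δ) * Real.log u)) * (1 / ((1 - δ) * √u))) by field_simp]
    rw [show (2 * Real.log y + Real.log lg) * √lg / (2 * √π * √y) =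
      (√lg / (2 * √π)) * ((2 * Real.log y + Real.log lg) * (1 / √y)) by field_simp]
    apply mul_le_mul_of_nonneg_left _ (by positivity)
    apply mul_le_mul L1 _ (by positivity) (by nlinarith)
    exact one_div_le_one_div_of_le (by positivity) S1

/-- far bound -/
theorem far {δ u y : ℝ} (hδ : 0 < δ) (hδ2 : δ ≤ 1) (hu : 0 < u) (hy : 0 < y)
    (h : δ * u ≤ |y - u|) :
    ee u y ≤ Real.exp (-(lg * δ ^ 2 / 16) * u) * Real.exp (-(lg * δ ^ 2 / 16) * y) := by
  have hl := lg_pos
  rw [ee, ← Real.exp_add]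
  apply Real.exp_le_exp.2
  have h1 : δ * (u + y) / 4 ≤ |y - u| := by
    rcases le_total u y with h2 | h2
    · rw [abs_of_nonneg (by linarith)] at h ⊢
      nlinarith
    · rw [abs_of_nonpos (by linarith)] at h ⊢
      nlinarith
  have h2 : (δ * (u + y) / 4) ^ 2 ≤ (y - u) ^ 2 := by
    rw [← sq_abs (y - u)]
    apply pow_le_pow_left₀ (by positivity) h1
  have h3 : δ ^ 2 / 16 * (u + y) ≤ (y - u) ^ 2 / u := by
    rw [le_div_iff₀ hu]
    refine le_trans ?_ h2
    have : 0 < δ ^ 2 * y * (u + y) := by positivity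
    nlinarith
  have h4 : lg * (δ ^ 2 / 16 * (u + y)) ≤ lg * ((y - u) ^ 2 / u) := mul_le_mul_of_nonneg_left h3 hl.le
  have h5 : -(lg / u) * (y - u) ^ 2 = -(lg * ((y - u) ^ 2 / u)) := by ring
  rw [h5]
  linarith

/-- tail domination -/
theorem tail {δ u y : ℝ} (hδ : 0 < δ) (hu : 0 < u) (h : δ * u ≤ |y - u|) :
    ee u y ≤ Real.exp (-(lg * δ ^ 2 / 2) * u) * Real.exp (-(lg / u / 2) * (y - u) ^ 2) := by
  have hl := lg_pos
  rw [ee, ← Real.exp_add]
  apply Real.exp_le_exp.2
  have h2 : (δ * u) ^ 2 ≤ (y - u) ^ 2 := by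
    rw [← sq_abs (y - u)]
    apply pow_le_pow_left₀ (by positivity) h
  have h3 : δ ^ 2 * u ≤ (y - u) ^ 2 / u := by
    rw [le_div_iff₀ hu]
    nlinarith
  have h4 : lg * (δ ^ 2 * u) ≤ lg * ((y - u) ^ 2 / u) := mul_le_mul_of_nonneg_left h3 hl.le
  have h5 : -(lg / u) * (y - u) ^ 2 = -(lg * ((y - u) ^ 2 / u)) := by ring
  have h6 : -(lg / u / 2) * (y - u) ^ 2 = -(lg * ((y - u) ^ 2 / u)) / 2 := by ring
  rw [h5, h6]
  linarith

theorem ww_cont {Y : ℝ} (hY : 0 < Y) : ContinuousOn ww (Set.uIcc Y (2 * Y)) := by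
  intro y hy
  rw [Set.uIcc_of_le (by linarith)] at hy
  have hy0 : 0 < y := lt_of_lt_of_le hY hy.1
  have h5 : 0 < √y := Real.sqrt_pos.2 hy0
  have h3 : 0 < √π := Real.sqrt_pos.2 Real.pi_pos
  unfold ww
  apply ContinuousAt.continuousWithinAt
  apply ContinuousAt.div
  · exact ((continuousAt_const.mul (Real.continuousAt_log hy0.ne')).add continuousAt_const).mul continuousAt_const
  · exact continuousAt_const.mul Real.continuous_sqrt.continuousAt
  · positivity

theorem ee_cont (u : ℝ) : Continuous (fun y => ee u y) := by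
  unfold ee; fun_prop

theorem ww_nonneg {y : ℝ} (hy : 2 ≤ y) : 0 ≤ ww y := by
  unfold ww
  have h1 : Real.log 2 ≤ Real.log y := Real.log_le_log (by norm_num) hy
  have h2 := lg_gt
  have h3 := log_lg_ge
  have h4 : lg ≤ Real.log y := h1
  have : 0 ≤ 2 * Real.log y + Real.log lg := by linarith
  positivity

theorem ww_le {y : ℝ} (hy : 2 ≤ y) : ww y ≤ 2 * y := by
  unfold ww
  have hl := lg_pos
  have h3 : 1 ≤ √π := by rw [Real.one_le_sqrt]; linarith [Real.pi_gt_three]
  have h5 : 1 ≤ √y := by rw [Real.one_le_sqrt]; linarith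
  have h6 : √lg ≤ 1 := by rw [Real.sqrt_le_iff]; constructor <;> linarith [lg_lt]
  have h7 := log_lg_neg
  have h8 : Real.log y ≤ y := by have := Real.log_le_sub_one_of_pos (show 0 < y by linarith); linarith
  have h9 : 0 ≤ Real.log y := Real.log_nonneg (by linarith)
  rw [div_le_iff₀ (by positivity)]
  have h10 : 1 ≤ √π * √y := by nlinarith
  have h11 : (2 * Real.log y + Real.log lg) * √lg ≤ (2 * Real.log y) * √lg := by
    apply mul_le_mul_of_nonneg_right _ (Real.sqrt_nonneg _); linarith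
  have h12 : (2 * Real.log y) * √lg ≤ (2 * Real.log y) * 1 := by
    apply mul_le_mul_of_nonneg_left h6; linarith
  nlinarith

/-- lower bound for one prime -/
theorem lower_one {δ u Y : ℝ} (hδ : 0 < δ) (hδ2 : δ ≤ 1 / 2) (hu : 0 < u) (hlu : 2 / δ ≤ Real.log u)
    (h1 : Y ≤ (1 - δ) * u) (h2 : (1 + δ) * u ≤ 2 * Y) (hY : 2 ≤ Y) :
    (1 - δ) ^ 2 * Real.log u * (1 - √2 * Real.exp (-(lg * δ ^ 2 / 2) * u)) ≤
      ∫ y in Y..(2 * Y), ww y * ee u y := by
  have hl := lg_pos
  have hw0 : 0 ≤ w0 u := by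
    unfold w0
    have : 0 ≤ Real.log u := le_trans (by positivity) hlu
    positivity
  set E := Real.exp (-(lg * δ ^ 2 / 2) * u) with hE
  have key : ∀ y : ℝ, (1 - δ) ^ 2 * w0 u * (ee u y - E * Real.exp (-(lg / u / 2) * (y - u) ^ 2)) ≤
      (Set.Ioc Y (2 * Y)).indicator (fun y => ww y * ee u y) y := by
    intro y
    by_cases hn : |y - u| < δ * u
    · have hmem : y ∈ Set.Ioc Y (2 * Y) := by
        rw [abs_lt] at hn
        constructor <;> nlinarith [hn.1, hn.2]
      rw [Set.indicator_of_mem hmem]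
      have h3 := (near hδ hδ2 hu hlu hn.le).1
      calc (1 - δ) ^ 2 * w0 u * (ee u y - E * Real.exp (-(lg / u / 2) * (y - u) ^ 2))
          ≤ (1 - δ) ^ 2 * w0 u * ee u y := by
            apply mul_le_mul_of_nonneg_left _ (by positivity)
            have : 0 < E * Real.exp (-(lg / u / 2) * (y - u) ^ 2) := by positivity
            linarith
        _ ≤ ww y * ee u y := mul_le_mul_of_nonneg_right h3 (ee_pos _ _).le
    · have h3 := tail hδ hu (not_lt.1 hn)
      have h4 : (1 - δ) ^ 2 * w0 u * (ee u y - E * Real.exp (-(lg / u / 2) * (y - u) ^ 2)) ≤ 0 := by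
        apply mul_nonpos_of_nonneg_of_nonpos (by positivity); linarith
      refine le_trans h4 ?_
      apply Set.indicator_nonneg
      intro z hz
      exact mul_nonneg (ww_nonneg (by linarith [hz.1])) (ee_pos _ _).le
  have hb : 0 < lg / u / 2 := by positivity
  have i1 : Integrable (fun y : ℝ => (1 - δ) ^ 2 * w0 u * (ee u y - E * Real.exp (-(lg / u / 2) * (y - u) ^ 2))) :=
    ((integrable_ee hu).sub ((integrable_gauss hb u).const_mul E)).const_mul _
  have i2 : IntegrableOn (fun y => ww y * ee u y) (Set.Ioc Y (2 * Y)) := by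
    have : IntervalIntegrable (fun y => ww y * ee u y) volume Y (2 * Y) :=
      ((ww_cont (by linarith)).mul (ee_cont u).continuousOn).intervalIntegrable
    exact (intervalIntegrable_iff_integrableOn_Ioc_of_le (by linarith)).1 this
  have i3 : Integrable ((Set.Ioc Y (2 * Y)).indicator (fun y => ww y * ee u y)) :=
    i2.integrable_indicator measurableSet_Ioc
  have hI := integral_mono i1 i3 key
  rw [integral_indicator measurableSet_Ioc, ← intervalIntegral.integral_of_le (by linarith)] at hI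
  refine le_trans (le_of_eq ?_) hI
  rw [integral_const_mul, integral_sub (integrable_ee hu) ((integrable_gauss hb u).const_mul E),
    integral_const_mul, int_ee, int_gauss]
  have h6 : √(π / (lg / u / 2)) = √2 * √(π / (lg / u)) := by
    rw [← Real.sqrt_mul (by norm_num)]
    congr 1
    field_simp
  rw [h6]
  have h7 := sqrt_calc hu
  calc (1 - δ) ^ 2 * Real.log u * (1 - √2 * E)
      = (1 - δ) ^ 2 * (w0 u * √(π / (lg / u))) * (1 - √2 * E) := by rw [h7]
    _ = _ := by ring

/-- upper bound for one prime -/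
theorem upper_one {u Y : ℝ} (hu : 1 ≤ u) (hY : 0 ≤ Y) :
    ∫ y in Y..(2 * Y), w0 u * ee u y ≤ Real.log u := by
  have hu0 : 0 < u := by linarith
  have hl := lg_pos
  have hw0 : 0 ≤ w0 u := by
    unfold w0
    have : 0 ≤ Real.log u := Real.log_nonneg hu
    positivity
  rw [intervalIntegral.integral_const_mul, ← sqrt_calc hu0]
  apply mul_le_mul_of_nonneg_left _ hw0
  rw [intervalIntegral.integral_of_le (by linarith), ← int_ee]
  apply setIntegral_le_integral (integrable_ee hu0)
  exact Eventually.of_forall (fun y => (ee_pos _ _).le)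

end Pool.Agent.H446R3.NA
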