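import Pool.Agent.H446R3.NA.AV1

/-! Sums for TaskAV (project H295-NA). -/

set_option autoImplicit false

open Filter Topology MeasureTheory Real Finset

namespace Pool.Agent.H446R3.NA

open Classical in
noncomputable def KN (y : ℝ) : ℝ := ∑' n : ℕ, if n.Prime then ee ((n : ℝ) - 1) y else 0

theorem ee_le {u y : ℝ} (hu : 0 < u) : ee u y ≤ Real.exp (2 * lg * y) * Real.exp (-lg * u) := by
  have hl := lg_pos
  rw [ee, ← Real.exp_add]
  apply Real.exp_le_exp.2
  have h5 : -(lg / u) * (y - u) ^ 2 = 2 * lg * y + -lg * u - lg * (y ^ 2 / u) := by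
    field_simp; ring
  rw [h5]
  have : 0 ≤ lg * (y ^ 2 / u) := by positivity
  linarith

theorem summ_exp {κ : ℝ} (hκ : 0 < κ) : Summable (fun n : ℕ => Real.exp (-κ * ((n : ℝ) - 1))) := by
  have h1 : Summable (fun n : ℕ => Real.exp κ * (Real.exp (-κ)) ^ n) := by
    apply Summable.mul_left
    apply summable_geometric_of_lt_one (Real.exp_pos _).le
    rw [Real.exp_lt_one_iff]; linarith
  refine h1.congr ?_
  intro n
  rw [← Real.exp_nat_mul, ← Real.exp_add]
  congr 1; ring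

theorem prime_u {n : ℕ} (hn : n.Prime) : (1 : ℝ) ≤ (n : ℝ) - 1 := by
  have : (2 : ℝ) ≤ n := by exact_mod_cast hn.two_le
  linarith

open Classical in
theorem summ (y : ℝ) : Summable (fun n : ℕ => if n.Prime then ee ((n : ℝ) - 1) y else 0) := by
  apply Summable.of_nonneg_of_le (f := fun n : ℕ => Real.exp (2 * lg * y) * Real.exp (-lg * ((n : ℝ) - 1)))
  · intro n; split_ifs
    · exact (ee_pos _ _).le
    · exact le_rfl
  · intro n; split_ifs with h
    · exact ee_le (by have := prime_u h; linarith)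
    · positivity
  · exact (summ_exp lg_pos).mul_left _

open Classical in
theorem KN_cont {Y : ℝ} (hY : 0 < Y) : ContinuousOn KN (Set.uIcc Y (2 * Y)) := by
  unfold KN
  apply continuousOn_tsum (u := fun n : ℕ => Real.exp (2 * lg * (2 * Y)) * Real.exp (-lg * ((n : ℝ) - 1)))
  · intro n
    split_ifs
    · exact (ee_cont _).continuousOn
    · exact continuousOn_const
  · exact (summ_exp lg_pos).mul_left _
  · intro n y hy
    rw [Set.uIcc_of_le (by linarith)] at hy
    split_ifs with h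
    · rw [Real.norm_of_nonneg (ee_pos _ _).le]
      refine le_trans (ee_le (by have := prime_u h; linarith)) ?_
      apply mul_le_mul_of_nonneg_right _ (Real.exp_pos _).le
      apply Real.exp_le_exp.2
      have := lg_pos
      nlinarith [hy.2]
    · simp; positivity

open Classical in
theorem upper_pt {δ Y y S : ℝ} (hδ : 0 < δ) (hδ2 : δ ≤ 1 / 2) (hY : 2 ≤ Y)
    (hlY : 2 / δ ≤ Real.log (Y / 2)) (hy1 : Y ≤ y) (hy2 : y ≤ 2 * Y)
    (hS : S = ∑' n : ℕ, Real.exp (-(lg * δ ^ 2 / 16) * ((n : ℝ) - 1))) :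
    ww y * KN y ≤ ∑ n ∈ (Ioc ⌊1 / (1 + δ) * Y⌋₊ ⌊2 / (1 - δ) * Y + 1⌋₊).filter Nat.Prime,
      (1 + δ) / (1 - δ) * (w0 ((n : ℝ) - 1) * ee ((n : ℝ) - 1) y) +
      ww y * (Real.exp (-(lg * δ ^ 2 / 16) * y) * S) := by
  have hl := lg_pos
  have hκ : 0 < lg * δ ^ 2 / 16 := by positivity
  have hy0 : 0 < y := by linarith
  have hw : 0 ≤ ww y := ww_nonneg (by linarith)
  set P := (Ioc ⌊1 / (1 + δ) * Y⌋₊ ⌊2 / (1 - δ) * Y + 1⌋₊).filter Nat.Prime with hP
  have s1 : HasSum (fun n : ℕ => ww y * (if n.Prime then ee ((n : ℝ) - 1) y else 0)) (ww y * KN y) :=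
    (summ y).hasSum.mul_left _
  have s2 : HasSum (fun n : ℕ => if n ∈ P then (1 + δ) / (1 - δ) * (w0 ((n : ℝ) - 1) * ee ((n : ℝ) - 1) y) else 0)
      (∑ n ∈ P, (1 + δ) / (1 - δ) * (w0 ((n : ℝ) - 1) * ee ((n : ℝ) - 1) y)) := by
    have h0 : HasSum (fun n : ℕ => if n ∈ P then (1 + δ) / (1 - δ) * (w0 ((n : ℝ) - 1) * ee ((n : ℝ) - 1) y) else 0)
        (∑ n ∈ P, if n ∈ P then (1 + δ) / (1 - δ) * (w0 ((n : ℝ) - 1) * ee ((n : ℝ) - 1) y) else 0) :=
      hasSum_sum_of_ne_finset_zero (fun n hn => by simp [hn])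
    rwa [Finset.sum_congr rfl (g := fun n : ℕ => (1 + δ) / (1 - δ) * (w0 ((n : ℝ) - 1) * ee ((n : ℝ) - 1) y))
      (fun n hn => by simp [hn])] at h0
  have s3 : HasSum (fun n : ℕ => ww y * (Real.exp (-(lg * δ ^ 2 / 16) * y) * Real.exp (-(lg * δ ^ 2 / 16) * ((n : ℝ) - 1))))
      (ww y * (Real.exp (-(lg * δ ^ 2 / 16) * y) * S)) := by
    rw [hS]
    exact ((summ_exp hκ).hasSum.mul_left _).mul_left _
  refine hasSum_le ?_ s1 (s2.add s3)
  intro n
  have e3 : 0 ≤ ww y * (Real.exp (-(lg * δ ^ 2 / 16) * y) * Real.exp (-(lg * δ ^ 2 / 16) * ((n : ℝ) - 1))) := by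
    positivity
  have hPw : n ∈ P → 0 ≤ (1 + δ) / (1 - δ) * (w0 ((n : ℝ) - 1) * ee ((n : ℝ) - 1) y) := by
    intro hn
    rw [hP, Finset.mem_filter] at hn
    have h1 := prime_u hn.2
    have h2 : 0 ≤ Real.log ((n : ℝ) - 1) := Real.log_nonneg h1
    have h3 : 0 ≤ (1 + δ) / (1 - δ) := by apply div_nonneg <;> linarith
    have h4 : 0 ≤ w0 ((n : ℝ) - 1) := by unfold w0; positivity
    have := ee_pos ((n : ℝ) - 1) y
    positivity
  by_cases hp : n.Prime
  · rw [if_pos hp]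
    have hu1 := prime_u hp
    have hu0 : (0 : ℝ) < (n : ℝ) - 1 := by linarith
    by_cases hn : |y - ((n : ℝ) - 1)| ≤ δ * ((n : ℝ) - 1)
    · have hab := abs_le.1 hn
      have hd1 : (0 : ℝ) < 1 - δ := by linarith
      have hd2 : (0 : ℝ) < 1 + δ := by linarith
      have b1 : 1 / (1 + δ) * Y ≤ (n : ℝ) - 1 := by
        rw [one_div, inv_mul_le_iff₀ hd2]; nlinarith [hab.2]
      have b2 : (n : ℝ) - 1 ≤ 2 / (1 - δ) * Y := by
        rw [div_mul_eq_mul_div, le_div_iff₀ hd1]; nlinarith [hab.1]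
      have hmem : n ∈ P := by
        rw [hP, Finset.mem_filter, Finset.mem_Ioc]
        refine ⟨⟨?_, ?_⟩, hp⟩
        · rw [Nat.floor_lt (by positivity)]; linarith
        · apply Nat.le_floor; linarith
      rw [if_pos hmem]
      have hlu : 2 / δ ≤ Real.log ((n : ℝ) - 1) := by
        refine le_trans hlY (Real.log_le_log (by linarith) ?_)
        refine le_trans ?_ b1
        have : (1 : ℝ) / 2 ≤ 1 / (1 + δ) := one_div_le_one_div_of_le hd2 (by linarith)
        nlinarith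
      have h3 := (near hδ hδ2 hu0 hlu hn).2
      have h4 := mul_le_mul_of_nonneg_right h3 (ee_pos ((n : ℝ) - 1) y).le
      calc ww y * ee ((n : ℝ) - 1) y ≤ (1 + δ) / (1 - δ) * w0 ((n : ℝ) - 1) * ee ((n : ℝ) - 1) y := h4
        _ = (1 + δ) / (1 - δ) * (w0 ((n : ℝ) - 1) * ee ((n : ℝ) - 1) y) := by ring
        _ ≤ _ := le_add_of_nonneg_right e3
    · have h3 := far hδ (by linarith) hu0 hy0 (not_le.1 hn).le
      have h4 : ww y * ee ((n : ℝ) - 1) y ≤ ww y * (Real.exp (-(lg * δ ^ 2 / 16) * y) * Real.exp (-(lg * δ ^ 2 / 16) * ((n : ℝ) - 1))) := by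
        apply mul_le_mul_of_nonneg_left _ hw
        linarith [mul_comm (Real.exp (-(lg * δ ^ 2 / 16) * y)) (Real.exp (-(lg * δ ^ 2 / 16) * ((n : ℝ) - 1)))]
      refine le_trans h4 (le_add_of_nonneg_left ?_)
      split_ifs with hm
      · exact hPw hm
      · exact le_rfl
  · rw [if_neg hp, mul_zero]
    apply add_nonneg _ e3
    split_ifs with hm
    · exact hPw hm
    · exact le_rfl

/-- upper bound for the integral -/
theorem upper_int {δ Y : ℝ} (hδ : 0 < δ) (hδ2 : δ ≤ 1 / 2) (hY : 2 ≤ Y)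
    (hlY : 2 / δ ≤ Real.log (Y / 2))
    (hsm : ∀ y : ℝ, Y ≤ y → ww y * (Real.exp (-(lg * δ ^ 2 / 16) * y) *
      ∑' n : ℕ, Real.exp (-(lg * δ ^ 2 / 16) * ((n : ℝ) - 1))) ≤ δ) :
    ∫ y in Y..(2 * Y), ww y * KN y ≤ (1 + δ) / (1 - δ) *
      (Chebyshev.theta (2 / (1 - δ) * Y + 1) - Chebyshev.theta (1 / (1 + δ) * Y)) + δ * Y := by
  set P := (Ioc ⌊1 / (1 + δ) * Y⌋₊ ⌊2 / (1 - δ) * Y + 1⌋₊).filter Nat.Prime with hP
  have hd1 : (0 : ℝ) < 1 - δ := by linarith
  have hd2 : (0 : ℝ) < 1 + δ := by linarith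
  have i1 : IntervalIntegrable (fun y => ww y * KN y) volume Y (2 * Y) :=
    ((ww_cont (by linarith)).mul (KN_cont (by linarith))).intervalIntegrable
  have i0 : ∀ n ∈ P, IntervalIntegrable (fun y => (1 + δ) / (1 - δ) * (w0 ((n : ℝ) - 1) * ee ((n : ℝ) - 1) y)) volume Y (2 * Y) := by
    intro n _
    exact (continuous_const.mul (continuous_const.mul (ee_cont _))).intervalIntegrable _ _
  have i2 : IntervalIntegrable (fun y => ∑ n ∈ P,
      (1 + δ) / (1 - δ) * (w0 ((n : ℝ) - 1) * ee ((n : ℝ) - 1) y) + δ) volume Y (2 * Y) := by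
    apply Continuous.intervalIntegrable
    apply Continuous.add _ continuous_const
    apply continuous_finsetSum
    intro n _
    exact continuous_const.mul (continuous_const.mul (ee_cont _))
  have hI := intervalIntegral.integral_mono_on (by linarith) i1 i2 (fun y hy => by
    refine le_trans (upper_pt hδ hδ2 hY hlY hy.1 hy.2 rfl) ?_
    have := hsm y hy.1
    linarith)
  refine le_trans hI ?_
  rw [intervalIntegral.integral_add (by
      apply Continuous.intervalIntegrable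
      apply continuous_finsetSum
      intro n _
      exact continuous_const.mul (continuous_const.mul (ee_cont _))) (by simp),
    intervalIntegral.integral_finsetSum i0, intervalIntegral.integral_const]
  have hc : ∑ n ∈ P, ∫ y in Y..(2 * Y), (1 + δ) / (1 - δ) * (w0 ((n : ℝ) - 1) * ee ((n : ℝ) - 1) y) ≤
      (1 + δ) / (1 - δ) * (Chebyshev.theta (2 / (1 - δ) * Y + 1) - Chebyshev.theta (1 / (1 + δ) * Y)) := by
    have hth : Chebyshev.theta (2 / (1 - δ) * Y + 1) - Chebyshev.theta (1 / (1 + δ) * Y) = ∑ n ∈ P, Real.log n := by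
      unfold Chebyshev.theta
      rw [hP]
      have hle : ⌊1 / (1 + δ) * Y⌋₊ ≤ ⌊2 / (1 - δ) * Y + 1⌋₊ := by
        apply Nat.floor_le_floor
        have h1 : 1 / (1 + δ) ≤ 1 := by rw [div_le_iff₀ hd2]; linarith
        have h2 : 2 ≤ 2 / (1 - δ) := by rw [le_div_iff₀ hd1]; linarith
        nlinarith
      have hun : (Ioc 0 ⌊2 / (1 - δ) * Y + 1⌋₊).filter Nat.Prime =
          (Ioc 0 ⌊1 / (1 + δ) * Y⌋₊).filter Nat.Prime ∪
          (Ioc ⌊1 / (1 + δ) * Y⌋₊ ⌊2 / (1 - δ) * Y + 1⌋₊).filter Nat.Prime := by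
        rw [← Finset.filter_union, Finset.Ioc_union_Ioc_eq_Ioc (Nat.zero_le _) hle]
      rw [hun, Finset.sum_union]
      · ring
      · rw [Finset.disjoint_left]
        intro x hx hx2
        simp only [Finset.mem_filter, Finset.mem_Ioc] at hx hx2
        omega
    rw [hth, Finset.mul_sum]
    apply Finset.sum_le_sum
    intro n hn
    rw [hP, Finset.mem_filter] at hn
    have h1 := prime_u hn.2
    rw [intervalIntegral.integral_const_mul]
    apply mul_le_mul_of_nonneg_left _ (by apply div_nonneg <;> linarith)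
    refine le_trans (upper_one h1 (by linarith)) ?_
    exact Real.log_le_log (by linarith) (by linarith)
  have h2 : (2 * Y - Y) • δ = δ * Y := by simp; ring
  rw [h2]
  linarith

open Classical in
/-- lower bound for the integral -/
theorem lower_int {δ Y : ℝ} (hδ : 0 < δ) (hδ2 : δ ≤ 1 / 2) (hY : 2 ≤ Y)
    (hlY : 2 / δ ≤ Real.log Y)
    (hsm : ∀ u : ℝ, Y ≤ u → √2 * Real.exp (-(lg * δ ^ 2 / 2) * u) ≤ δ) :
    (1 - δ) ^ 4 *
      (Chebyshev.theta (2 / (1 + δ) * Y) - Chebyshev.theta (1 / (1 - δ) * Y + 1)) ≤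
    ∫ y in Y..(2 * Y), ww y * KN y := by
  set P := (Ioc ⌊1 / (1 - δ) * Y + 1⌋₊ ⌊2 / (1 + δ) * Y⌋₊).filter Nat.Prime with hP
  have hd1 : (0 : ℝ) < 1 - δ := by linarith
  have hd2 : (0 : ℝ) < 1 + δ := by linarith
  have i1 : IntervalIntegrable (fun y => ww y * KN y) volume Y (2 * Y) :=
    ((ww_cont (by linarith)).mul (KN_cont (by linarith))).intervalIntegrable
  have i0 : ∀ n ∈ P, IntervalIntegrable (fun y => ww y * ee ((n : ℝ) - 1) y) volume Y (2 * Y) := by
    intro n _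
    exact ((ww_cont (by linarith)).mul (ee_cont _).continuousOn).intervalIntegrable
  have i2 : IntervalIntegrable (fun y => ∑ n ∈ P, ww y * ee ((n : ℝ) - 1) y) volume Y (2 * Y) := by
    apply ContinuousOn.intervalIntegrable
    apply continuousOn_finsetSum
    intro n _
    exact (ww_cont (by linarith)).mul (ee_cont _).continuousOn
  have hI := intervalIntegral.integral_mono_on (by linarith) i2 i1 (fun y hy => by
    have hw : 0 ≤ ww y := ww_nonneg (by linarith [hy.1])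
    rw [← Finset.mul_sum]
    apply mul_le_mul_of_nonneg_left _ hw
    unfold KN
    have h1 := (summ y).sum_le_tsum P (fun n _ => by
      show 0 ≤ if n.Prime then ee ((n : ℝ) - 1) y else 0
      split_ifs
      · exact (ee_pos _ _).le
      · exact le_rfl)
    refine le_trans (le_of_eq ?_) h1
    apply Finset.sum_congr rfl
    intro n hn
    rw [hP, Finset.mem_filter] at hn
    rw [if_pos hn.2])
  refine le_trans ?_ hI
  rw [intervalIntegral.integral_finsetSum i0]
  have hth : Chebyshev.theta (2 / (1 + δ) * Y) - Chebyshev.theta (1 / (1 - δ) * Y + 1) ≤ ∑ n ∈ P, Real.log n := by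
    unfold Chebyshev.theta
    rw [hP, sub_le_iff_le_add']
    have hun : (Ioc 0 ⌊2 / (1 + δ) * Y⌋₊).filter Nat.Prime ⊆
        (Ioc 0 ⌊1 / (1 - δ) * Y + 1⌋₊).filter Nat.Prime ∪
        (Ioc ⌊1 / (1 - δ) * Y + 1⌋₊ ⌊2 / (1 + δ) * Y⌋₊).filter Nat.Prime := by
      intro x hx
      simp only [Finset.mem_union, Finset.mem_filter, Finset.mem_Ioc] at hx ⊢
      rcases le_or_gt x ⌊1 / (1 - δ) * Y + 1⌋₊ with h | h
      · left; exact ⟨⟨hx.1.1, h⟩, hx.2⟩
      · right; exact ⟨⟨h, hx.1.2⟩, hx.2⟩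
    refine le_trans (Finset.sum_le_sum_of_subset_of_nonneg hun ?_) (le_of_eq (Finset.sum_union ?_))
    · intro i _ _
      exact Real.log_natCast_nonneg i
    · rw [Finset.disjoint_left]
      intro x hx hx2
      simp only [Finset.mem_filter, Finset.mem_Ioc] at hx hx2
      omega
  refine le_trans (mul_le_mul_of_nonneg_left hth (by positivity)) ?_
  rw [Finset.mul_sum]
  apply Finset.sum_le_sum
  intro n hn
  rw [hP, Finset.mem_filter, Finset.mem_Ioc] at hn
  obtain ⟨⟨hn1, hn2⟩, hn3⟩ := hn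
  have h1 := prime_u hn3
  have hu0 : (0 : ℝ) < (n : ℝ) - 1 := by linarith
  have c1 : 1 / (1 - δ) * Y ≤ (n : ℝ) - 1 := by
    have := Nat.lt_of_floor_lt hn1
    linarith
  have c2 : (n : ℝ) ≤ 2 / (1 + δ) * Y := by
    exact (Nat.le_floor_iff (by positivity)).1 hn2
  have c3 : Y ≤ (1 - δ) * ((n : ℝ) - 1) := by
    rw [one_div, inv_mul_le_iff₀ hd1] at c1; exact c1
  have c4 : (1 + δ) * ((n : ℝ) - 1) ≤ 2 * Y := by
    rw [div_mul_eq_mul_div, le_div_iff₀ hd2] at c2
    nlinarith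
  have c5 : Y ≤ (n : ℝ) - 1 := by nlinarith
  have hlu : 2 / δ ≤ Real.log ((n : ℝ) - 1) := le_trans hlY (Real.log_le_log (by linarith) c5)
  refine le_trans ?_ (lower_one hδ hδ2 hu0 hlu c3 c4 hY)
  have h5 := hsm _ c5
  have hlogd : 2 ≤ δ * Real.log ((n : ℝ) - 1) := by
    have := (div_le_iff₀ hδ).1 hlu
    linarith
  have h6 : (1 - δ) * Real.log n ≤ Real.log ((n : ℝ) - 1) := by
    have q1 : Real.log n ≤ Real.log (2 * ((n : ℝ) - 1)) := Real.log_le_log (by linarith) (by linarith)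
    rw [Real.log_mul (by norm_num) hu0.ne'] at q1
    have q2 : Real.log 2 ≤ 1 := by have := lg_lt; unfold lg at this; linarith
    have q3 : Real.log ((n : ℝ) - 1) ≤ Real.log n := Real.log_le_log hu0 (by linarith)
    nlinarith
  have h7 : 0 ≤ Real.log n := Real.log_natCast_nonneg n
  calc (1 - δ) ^ 4 * Real.log n = (1 - δ) ^ 2 * ((1 - δ) * Real.log n) * (1 - δ) := by ring
    _ ≤ (1 - δ) ^ 2 * Real.log ((n : ℝ) - 1) * (1 - δ) := by
      apply mul_le_mul_of_nonneg_right _ hd1.le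
      apply mul_le_mul_of_nonneg_left h6 (by positivity)
    _ ≤ (1 - δ) ^ 2 * Real.log ((n : ℝ) - 1) * (1 - √2 * Real.exp (-(lg * δ ^ 2 / 2) * ((n : ℝ) - 1))) := by
      apply mul_le_mul_of_nonneg_left
      · linarith
      · have : 0 ≤ Real.log ((n : ℝ) - 1) := le_trans (by positivity) hlu
        positivity

end Pool.Agent.H446R3.NA
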